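import Mathlib
import Pool.Agent.L5helper71.NfAll

/-!
# Counting number fields uniformly in the degree, and counting all number fields

Let `c > 1 / (8 (log 2) ^ 2) = 0.26…`. There is `A` such that for every number field `K`, every
degree `n ≥ 2` and every `X ≥ 1` there are at most
`exp (A [K : ℚ] n (log n) ^ 3) X ^ (c (log n) ^ 2 + A)` extensions `L` of `K` of degree `n` in the
algebraic closure of `K` with absolute discriminant at most `X`. The constant `A` depends on `c`
only: the bound is uniform in the degree and in the base field.

Since the degree of a number field of discriminant at most `X` is at most `2 log X` (Minkowski),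
there are at most `exp (A log X (log log X) ^ 3)` extensions of `K`, of arbitrary degree, with
absolute discriminant at most `X`, with an absolute constant `A`. For `K = ℚ` this is the number of
all number fields in an algebraic closure of `ℚ` with discriminant at most `X`.

The proof follows the starting file `LinnikExponent` (the trace map of Ellenberg and Venkatesh with
the improvements of Lemke Oliver and Thorne and of the starting library), which has constants
without any control of the dependence on `n` and `[K : ℚ]`. Every field is determined by a
nondegenerate point in the fibre of a polynomial map in `n (r + u)` variables, given by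
`n (r + u)` traces of monomials, over an integral point of bounded size. The missing part is an
explicit bound for the number of nondegenerate points in a fibre of a polynomial map
`Q : ℂ ^ N → ℂ ^ N` of degree `D`; we prove `(N D + 1) ^ N` (`fibre_bound`): a linear form `h`
which separates the points satisfies an equation `P(Q, h) = 0` of degree at most `(N D + 1) ^ N` in
`h` (count coefficients), and the points can be moved to a fibre over which `P` does not vanish
identically. The other constants are computed, and bounded in terms of the exponent.
-/

set_option autoImplicit false

namespace Pool.Agent.Results.MP_bf81c2_nt.AllDegrees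

/-- The extensions of degree `n` of the number field `K` inside the algebraic closure of `K` whose
absolute discriminant has absolute value at most `X`. -/
def Fields (K : Type) [Field K] [NumberField K] (n : ℕ) (X : ℝ) :
    Set (IntermediateField K (AlgebraicClosure K)) :=
  {L | Module.finrank K L = n ∧
    ∃ h : NumberField L, ((|@NumberField.discr L _ h| : ℤ) : ℝ) ≤ X}

/-- The finite extensions of the number field `K`, of any degree, inside the algebraic closure of
`K`, whose absolute discriminant has absolute value at most `X`. -/
def AllFields (K : Type) [Field K] [NumberField K] (X : ℝ) :
    Set (IntermediateField K (AlgebraicClosure K)) :=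
  {L | ∃ h : NumberField L, ((|@NumberField.discr L _ h| : ℤ) : ℝ) ≤ X}

/-- (1) For every `c > 1 / (8 (log 2) ^ 2)` there is `A` such that for all number fields `K`, all
`n ≥ 2` and all `X ≥ 1` there are at most `exp (A [K : ℚ] n (log n) ^ 3) X ^ (c (log n) ^ 2 + A)`
extensions of `K` of degree `n` with absolute discriminant at most `X`.
(2) There is `A` such that for all number fields `K` and all `X ≥ 16` there are at most
`exp (A log X (log log X) ^ 3)` extensions of `K` with absolute discriminant at most `X`. -/
theorem result :
    (∀ c : ℝ, 1 / (8 * (Real.log 2) ^ 2) < c → ∃ A : ℝ,
      ∀ (K : Type) [Field K] [NumberField K] (n : ℕ), 2 ≤ n → ∀ X : ℝ, 1 ≤ X →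
        (Fields K n X).Finite ∧ ((Fields K n X).ncard : ℝ) ≤
          Real.exp (A * Module.finrank ℚ K * n * (Real.log n) ^ 3) *
            X ^ (c * (Real.log n) ^ 2 + A)) ∧
    ∃ A : ℝ, ∀ (K : Type) [Field K] [NumberField K] (X : ℝ), 16 ≤ X →
      (AllFields K X).Finite ∧ ((AllFields K X).ncard : ℝ) ≤
        Real.exp (A * Real.log X * (Real.log (Real.log X)) ^ 3) := by
  refine ⟨fun c hc => ?_, ?_⟩
  · obtain ⟨A, -, h⟩ := Pool.Agent.L5helper71.Nf.uniform c hc
    exact ⟨A, h⟩
  · obtain ⟨A, -, h⟩ := Pool.Agent.L5helper71.Nf.all_degrees
    exact ⟨A, h⟩

end Pool.Agent.Results.MP_bf81c2_nt.AllDegrees
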