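import Mathlib
import Pool.Agent.L5helper40.NF.F8

set_option autoImplicit false

namespace Pool.Agent.Results.MP_bf81c2_nt.LogarithmicExponent

/-- The extensions of degree `n` of the number field `K` inside the algebraic closure of `K` whose
absolute discriminant has absolute value at most `X`. -/
def Fields (K : Type) [Field K] [NumberField K] (n : ℕ) (X : ℝ) :
    Set (IntermediateField K (AlgebraicClosure K)) :=
  {L | Module.finrank K L = n ∧
    ∃ h : NumberField L, ((|@NumberField.discr L _ h| : ℤ) : ℝ) ≤ X}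

/-- For every number field `K`, all `n, k, r ≥ 1` with `n ≤ k ^ r` and every `ε > 0`, the number of
extensions of degree `n` with absolute discriminant at most `X` is at most
`C X ^ ((k - 1/2) r + ε)`. Hence, for every `c > 3 / (2 log 2)`, it is at most `C X ^ (c log n)` for
all `n` beyond a bound which depends on `c` only. -/
theorem result :
    (∀ (K : Type) [Field K] [NumberField K] (n k r : ℕ), 1 ≤ n → 1 ≤ r → n ≤ k ^ r →
      ∀ ε : ℝ, 0 < ε → ∃ C : ℝ, ∀ X : ℝ, 1 ≤ X →
        (Fields K n X).Finite ∧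
          ((Fields K n X).ncard : ℝ) ≤ C * X ^ (((k : ℝ) - 1 / 2) * r + ε)) ∧
    ∀ c : ℝ, 3 / (2 * Real.log 2) < c → ∀ᶠ n : ℕ in Filter.atTop,
      ∀ (K : Type) [Field K] [NumberField K], ∃ C : ℝ, ∀ X : ℝ, 1 ≤ X →
        ((Fields K n X).ncard : ℝ) ≤ C * X ^ (c * Real.log n) := by
  have h1 : ∀ (K : Type) [Field K] [NumberField K] (n k r : ℕ), 1 ≤ n → 1 ≤ r → n ≤ k ^ r →
      ∀ ε : ℝ, 0 < ε → ∃ C : ℝ, 0 < C ∧ ∀ X : ℝ, 1 ≤ X →
        (Fields K n X).Finite ∧
          ((Fields K n X).ncard : ℝ) ≤ C * X ^ (((k : ℝ) - 1 / 2) * r + ε) := by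
    intro K _ _ n k r hn hr hkr ε hε
    have hk : 0 < k := by
      rcases Nat.eq_zero_or_pos k with rfl | h
      · rw [zero_pow (by omega)] at hkr
        omega
      · exact h
    exact Pool.Agent.L5helper40.NF.count_FS2 K n k r hk hn hr hkr ε hε
  refine ⟨?_, ?_⟩
  · intro K _ _ n k r hn hr hkr ε hε
    obtain ⟨C, -, hC⟩ := h1 K n k r hn hr hkr ε hε
    exact ⟨C, hC⟩
  · intro c hc
    have hl2 : 0 < Real.log 2 := Real.log_pos (by norm_num)
    have hlog : Filter.Tendsto (fun n : ℕ => Real.log n) Filter.atTop Filter.atTop :=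
      Real.tendsto_log_atTop.comp tendsto_natCast_atTop_atTop
    have h2 : Filter.Tendsto (fun n : ℕ => (c - 3 / (2 * Real.log 2)) * Real.log n) Filter.atTop
        Filter.atTop := Filter.Tendsto.const_mul_atTop (sub_pos.2 hc) hlog
    filter_upwards [h2.eventually_ge_atTop 3, Filter.eventually_ge_atTop 2] with n hn1 hn2
    intro K _ _
    have hclog : 1 ≤ Nat.clog 2 n := Nat.clog_pos (by norm_num) (by omega)
    obtain ⟨C, hC0, hC⟩ := h1 K n 2 (Nat.clog 2 n) (by omega) hclog (Nat.le_pow_clog (by norm_num) n)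
      1 one_pos
    refine ⟨C, fun X hX => (hC X hX).2.trans ?_⟩
    apply mul_le_mul_of_nonneg_left _ hC0.le
    apply Real.rpow_le_rpow_of_exponent_le hX
    have h3 : (2 : ℝ) ^ (Nat.clog 2 n - 1) < n := by
      have := Nat.pow_pred_clog_lt_self (b := 2) (by norm_num) (x := n) (by omega)
      exact_mod_cast this
    have h4 : ((Nat.clog 2 n - 1 : ℕ) : ℝ) * Real.log 2 < Real.log n := by
      rw [← Real.log_pow]
      exact Real.log_lt_log (by positivity) h3
    have h5 : ((Nat.clog 2 n : ℕ) : ℝ) < Real.log n / Real.log 2 + 1 := by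
      rw [Nat.cast_sub hclog, Nat.cast_one] at h4
      rw [← sub_lt_iff_lt_add, lt_div_iff₀ hl2]
      exact h4
    have h6 : (3 / (2 * Real.log 2)) * Real.log n = (3 / 2) * (Real.log n / Real.log 2) := by
      field_simp
    push_cast
    nlinarith

end Pool.Agent.Results.MP_bf81c2_nt.LogarithmicExponent
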