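import Mathlib
import Pool.Agent.L5helper9.Nk10

/-!
# A lower bound for the number of extensions of a number field with Galois group `S_n`

For every `c < 4 / 3` and every `n` beyond a bound which depends on `c` only, every number field `K`
has at least `X ^ (1 / 2 + c / n)` extensions of degree `n` with Galois group `S_n` and discriminant
at most `X` in absolute value, for all large `X`. (Known: `1 / 2 + 1 / n ^ 2` for every `K`,
Ellenberg and Venkatesh; `1 / 2 + 1 / (n - 1)` for `K = ℚ`, Bhargava, Shankar and Wang.)

Method. Let `d = [K : ℚ]`. Take monic `f` over the integers of `K` with `house a_i ≤ M T ^ (n - i)`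
such that `f(r) = 0` modulo `𝔭 ^ 2` and `f'(r) = 0` modulo `𝔭` for a large prime `𝔭` of degree one
with norm `P` and some residue `r`: the field `L = K(α)` of `f` has discriminant at most
`C T ^ (d n (n - 1)) / P ^ 2`, and the number of such `f`, for all `(𝔭, r)` together, is about
`T ^ (d n (n + 1) / 2) / P`. This is proved for `P` up to `T ^ (d n ^ 2 / 8)`, far beyond `T ^ d`:
for most `r` no nonzero polynomial of degree about `n / 2` with small coefficients vanishes at `r`
modulo `𝔭` (`goodK`), so (Cauchy-Davenport) every residue modulo `𝔭` is the value at `r` of such a
small polynomial, and products of two of them represent all the classes modulo `(𝔭, X - r) ^ 2`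
(`reps2K`). The congruence `f ≡ f₀ mod 30` forces the Galois group `S_n` (`exists_residueK`).

Multiplicity. A field `L` contains `T ^ O(d log n)` of the roots: if the integers of `L` with all
conjugates at most `B = n M T` span a `K`-space of dimension greater than `S`, then, as `L / K` has
no intermediate fields, the products of `k` of them span a space of dimension at least
`min (n, k S + 1)` (linear Cauchy-Davenport), so the discriminant of `L` is at most
`B ^ (d n ^ 2 / S + O(d n))`, and there are few such fields by the upper bound with exponent
`O(log n)` of the hand-in `LogarithmicExponent` (`S` a multiple of `log n`). The other fields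
contain `O(B ^ (d S))` such integers.
-/

set_option autoImplicit false

namespace Pool.Agent.Results.MP_bf81c2_nt.LowerBoundRecord

/-- The extensions `L` of degree `n` of the number field `K` in the algebraic closure of `K` whose
Galois closure over `K` has Galois group `S_n` (equivalently, degree `n!` over `K`) and whose
absolute discriminant is at most `X` in absolute value. -/
def Fields (K : Type) [Field K] [NumberField K] (n : ℕ) (X : ℝ) :
    Set (IntermediateField K (AlgebraicClosure K)) :=
  {L | Module.finrank K L = n ∧
    Module.finrank K (IntermediateField.normalClosure K L (AlgebraicClosure K)) = n.factorial ∧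
    ∃ h : NumberField L, ((|@NumberField.discr L _ h| : ℤ) : ℝ) ≤ X}

/-- For every `c < 4 / 3` and all `n` beyond a bound which depends on `c` only, every number field
`K` has at least `X ^ (1 / 2 + c / n)` extensions of degree `n` with Galois group `S_n` and absolute
discriminant at most `X` in absolute value, for all `X` beyond a bound which depends on `c`, `n`
and `K`. -/
theorem result : ∀ c : ℝ, c < 4 / 3 → ∀ᶠ n : ℕ in Filter.atTop,
    ∀ (K : Type) [Field K] [NumberField K], ∀ᶠ X : ℝ in Filter.atTop,
      (Fields K n X).Finite ∧ X ^ ((1 : ℝ) / 2 + c / n) ≤ ((Fields K n X).ncard : ℝ) := by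
  intro c hc
  filter_upwards [Pool.Agent.L5helper9.Nk.lower_allK c hc, Filter.eventually_ge_atTop 5] with n h hn
  intro K _ _
  filter_upwards [h K (fun L => Module.finrank K
      (IntermediateField.normalClosure K L (AlgebraicClosure K)) = n.factorial)
    (Pool.Agent.L5helper9.Nk.exists_residueK K n hn)] with X hX
  exact ⟨hX.1.subset (Pool.Agent.L5helper9.Nk.FlwK_subset K _ n X), hX.2⟩

end Pool.Agent.Results.MP_bf81c2_nt.LowerBoundRecord
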