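import Mathlib
import Pool.Agent.L5helper71.NfTow2

/-!
# The number of all extensions which are towers of extensions of bounded degree

Let `K` be a number field and `m ≥ 2`. We count all extensions `L` of `K` inside the algebraic
closure of `K`, of any degree, with absolute discriminant at most `X`, which can be reached from
`K` by a tower `K = L_0 ⊆ L_1 ⊆ … ⊆ L_k = L` with all `[L_{i+1} : L_i] ≤ m`. Their number is at most
`X ^ (A (log m) ^ 3)` with an absolute constant `A`. For a fixed `m`, e.g. for towers of quadratic
extensions, this is a power of `X` with an exponent which does not depend on `K` or on the degree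
of `L`. As a consequence, the number of all extensions `L` of `K` whose normal closure over `K` has
degree a power of the prime `p`, of any degree and with absolute discriminant at most `X`, is at
most `X ^ (A (log p) ^ 3)`.

The proof is an induction on the degree. If `F` is the last but one field of the tower, and
`b = [L : F]`, then the discriminant of `F` is at most `X ^ (1 / b)`. So, if `e` is an exponent
for `F`, and `E(b)` is the exponent for the number of the extensions of `F` of degree `b`, then
`e / b + E(b)` is an exponent for the number of the fields `L`, and the exponents stay bounded. This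
needs a bound for the number of extensions of degree `b` which is uniform in the base field `F`, with
a constant of the form `exp (O ([F : ℚ]))` for `b` bounded; this is
`exp (A [F : ℚ] b (log b) ^ 3) X ^ (c (log b) ^ 2 + A)` (`L5helper71.NfUni`). The product of the
constants in the tower is then at most `exp (O ([L : ℚ] (log m) ^ 3))`, and `[L : ℚ] ≤ 2 log X` by
Minkowski's bound.
-/

set_option autoImplicit false

namespace Pool.Agent.Results.MP_bf81c2_nt.Towers

/-- `IsTower K m L`: the extension `L` of `K` is obtained by a finite tower of extensions, beginning
with `K`, in which every field is a finite extension of degree at most `m` of the preceding one.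
For `F ≤ L`, `relfinrank F L` is the degree `[L : F]`, read as `0` if it is infinite. -/
inductive IsTower (K : Type) [Field K] (m : ℕ) :
    IntermediateField K (AlgebraicClosure K) → Prop
  | bot : IsTower K m ⊥
  | step (F L : IntermediateField K (AlgebraicClosure K)) : IsTower K m F → F ≤ L →
      1 ≤ IntermediateField.relfinrank F L → IntermediateField.relfinrank F L ≤ m →
        IsTower K m L

/-- The extensions of the number field `K`, of any degree, inside the algebraic closure of `K`,
which are towers of extensions of degree at most `m` and whose absolute discriminant has absolute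
value at most `X`. -/
def TowerFields (K : Type) [Field K] [NumberField K] (m : ℕ) (X : ℝ) :
    Set (IntermediateField K (AlgebraicClosure K)) :=
  {L | IsTower K m L ∧ ∃ h : NumberField L, ((|@NumberField.discr L _ h| : ℤ) : ℝ) ≤ X}

/-- The extensions of the number field `K`, of any degree, inside the algebraic closure of `K`,
whose normal closure over `K` has degree a power of `p` over `K`, and whose absolute discriminant
has absolute value at most `X`. -/
def PGroupFields (K : Type) [Field K] [NumberField K] (p : ℕ) (X : ℝ) :
    Set (IntermediateField K (AlgebraicClosure K)) :=
  {L | (∃ k : ℕ, Module.finrank K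
      (IntermediateField.normalClosure K L (AlgebraicClosure K)) = p ^ k) ∧
    ∃ h : NumberField L, ((|@NumberField.discr L _ h| : ℤ) : ℝ) ≤ X}

lemma isTower_iff {K : Type} [Field K] (m : ℕ) (L : IntermediateField K (AlgebraicClosure K)) :
    IsTower K m L ↔ Pool.Agent.L5helper71.Nf.Tower K m L := by
  constructor
  · intro h
    induction h with
    | bot => exact .bot
    | step F L _ h1 h2 h3 ih => exact .step F L ih h1 h2 h3
  · intro h
    induction h with
    | bot => exact .bot
    | step F L _ h1 h2 h3 ih => exact .step F L ih h1 h2 h3

/-- There is an absolute constant `A` such that for all number fields `K` and all `X ≥ 16`: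
(1) for all `m ≥ 2` there are at most `X ^ (A (log m) ^ 3)` extensions of `K`, of any degree, with
absolute discriminant at most `X`, which are towers of extensions of degree at most `m`;
(2) for all primes `p` there are at most `X ^ (A (log p) ^ 3)` extensions of `K`, of any degree,
with absolute discriminant at most `X`, whose normal closure has degree a power of `p`. -/
theorem result : ∃ A : ℝ, ∀ (K : Type) [Field K] [NumberField K] (X : ℝ), 16 ≤ X →
    (∀ m : ℕ, 2 ≤ m → (TowerFields K m X).Finite ∧
      ((TowerFields K m X).ncard : ℝ) ≤ X ^ (A * (Real.log m) ^ 3)) ∧
    (∀ p : ℕ, p.Prime → (PGroupFields K p X).Finite ∧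
      ((PGroupFields K p X).ncard : ℝ) ≤ X ^ (A * (Real.log p) ^ 3)) := by
  obtain ⟨A, -, h⟩ := Pool.Agent.L5helper71.Nf.tower_all
  have h1 : ∀ (K : Type) [Field K] [NumberField K] (m : ℕ) (X : ℝ),
      TowerFields K m X = Pool.Agent.L5helper71.Nf.AllTS K m X := by
    intro K _ _ m X
    ext L
    simp only [TowerFields, Pool.Agent.L5helper71.Nf.AllTS, Set.mem_setOf_eq, isTower_iff]
  refine ⟨A, fun K _ _ X hX => ⟨fun m hm => ?_, fun p hp => ?_⟩⟩
  · rw [h1]
    exact h K m hm X hX
  · have h2 : PGroupFields K p X ⊆ TowerFields K p X := by
      rintro L ⟨⟨k, hk⟩, hNF, hD⟩
      have hfd : FiniteDimensional K L := Module.Finite.of_restrictScalars_finite ℚ K L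
      exact ⟨(isTower_iff p L).2 (Pool.Agent.L5helper71.Nf.tower_of_pgroup hp le_rfl L hk),
        hNF, hD⟩
    have h3 := h K p hp.two_le X hX
    rw [← h1] at h3
    refine ⟨h3.1.subset h2, le_trans ?_ h3.2⟩
    exact_mod_cast Set.ncard_le_ncard h2 h3.1

end Pool.Agent.Results.MP_bf81c2_nt.Towers
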